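import Pool.Agent.W619.Y.LMain

/-! Nonvanishing for log canonical pairs on quotients of products of a variety and curves. -/

set_option autoImplicit false
set_option linter.overlappingInstances false

universe u

open FF IntermediateField Pool.Agent.W619.PQ Pool.Agent.W619.PL Pool.Agent.W619.TW
  Pool.Agent.W619.X Pool.Agent.W619.Y

namespace Pool.Agent.Results.MP_66b48b_ag.MixedLogPairs

/-- Let `Y` be a projective variety of dimension `d` with function field `M` (for instance a
point), `F i` (`i < n`) the function fields of curves `C i`, `Z` the product of `Y` and the curves,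
with function field `L` (`hsup`), `G` a finite group of automorphisms of `L` which permutes the
curves through `σ`, `B i` a finite set of points of the quotient of `C i` by its stabilizer, such
that the `B i` are permuted by `G`. Let `(X, D)` be a log canonical pair, where `X` is a projective
manifold birational to `Z / G` and `D` the reduced divisor with normal crossings over the `B i`
(the places in `BdQ`). Assume `LogMixedNonneg`, for instance that the fixed locus of each `g ≠ 1`
in `G` on the product of the curves is empty or of codimension at least `6`, or at least `2` if no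
`B i` is empty.

If `K_X + D` is pseudo-effective, then `K_Y` is pseudo-effective and none of the open curves
`C i` minus the preimage of `B i` is the projective line or the affine line. If moreover
`κ (Y) ≥ 0` (as is expected if `K_Y` is pseudo-effective), then `κ (K_X + D) ≥ 0`. -/
theorem result {L : Type u} [Field L] [Algebra ℂ L] (d n : ℕ)
    (hn : Algebra.trdeg ℂ L = (d + n : ℕ))
    (M : IntermediateField ℂ L) [Algebra.EssFiniteType ℂ M] (hM : Algebra.trdeg ℂ M = d)
    (F : Fin n → IntermediateField ℂ L) (hF : ∀ i, IsFF ℂ (F i))
    (hsup : M ⊔ (⨆ i, F i) = ⊤)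
    (G : Subgroup (L ≃ₐ[ℂ] L)) [Finite G] (σ : G →* Equiv.Perm (Fin n))
    (hσ : ∀ (g : G) i, ∀ z ∈ F i, (g : L ≃ₐ[ℂ] L) z ∈ F (σ g i))
    (B : ∀ i, Set (Place ℂ ↥(F i ⊓ fixedField (stb G σ i)))) (hB : ∀ i, (B i).Finite)
    (hinv : BdInv G σ F B) (h : LogMixedNonneg G σ F B)
    (hps : IsPsef ℂ (fixedField G) (d + n) (BdQ G σ F B)) :
    IsPsef ℂ M d (fun _ => False) ∧ (∀ i, ¬ IsNegative inf_le_left (B i)) ∧
      (IsEff ℂ M d (fun _ => False) → IsEff ℂ (fixedField G) (d + n) (BdQ G σ F B)) := by
  have halg : Algebra.IsAlgebraic ↥(M ⊔ ⨆ i, F i) L := by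
    rw [hsup]
    exact ⟨fun x => isAlgebraic_algebraMap (⟨x, trivial⟩ : (⊤ : IntermediateField ℂ L))⟩
  exact (nvLM d n hn M hM F halg G σ hσ B hB hinv h).2 hsup hps

end Pool.Agent.Results.MP_66b48b_ag.MixedLogPairs
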