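import Pool.Agent.Y172.R8

/-!
Abundance, in terms of the literal definitions of the Kodaira dimension and of the numerical
dimension, for log canonical pairs `(X, Δ)` such that `K_X + Δ - Γ` is pseudo-effective, with a finite
cover which is very affine over a base of general type outside of `Γ` and of the diminished base
locus; all boundaries between `Δ - Γ` and `Δ + ∞ Γ` are treated at once.
-/

set_option autoImplicit false

open FF Pool.Agent.W602.GT Pool.Agent.Y172

namespace Pool.Agent.Results.MP_66b48b_ag.PseudoEffectiveDifference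

/-- `K_X + D` is pseudo-effective, tested with the effective divisor `A`: the divisor
`m (K_X + D) + A` has a section `≠ 0` for arbitrarily large `m`. -/
def PseudoEffective {K : Type} [Field K] [Algebra ℂ K] {N : ℕ} (y : Fin (N + 1) → K) (n : ℕ)
    (D A : Place ℂ K → ℚ) : Prop :=
  ∀ m₁ : ℕ, ∃ m : ℕ, m₁ ≤ m ∧ ∃ s, IsSection y n m (m • D + A) s ∧ s ≠ 0

/-- The prime divisor `P` is negligible: it is in the support of `Γ`, or in the base locus of
`m (K_X + Δ + η A)` for all `m ≥ 1` and all small `η ≥ 0`. -/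
def Negligible {K : Type} [Field K] [Algebra ℂ K] {N : ℕ} (y : Fin (N + 1) → K) (n : ℕ)
    (Δ Γ A : Place ℂ K → ℚ) (P : Place ℂ K) : Prop :=
  Γ P ≠ 0 ∨ Diminished y n Δ A P

/-- The `M`-canonical form `f (dx₁ ∧ ... ∧ dx_d) ^ M`. -/
noncomputable def baseForm {L : Type} [Field L] [Algebra ℂ L] {d : ℕ} (x : Fin d → L) (M : ℕ)
    (f : L) (G : Fin d → Derivation ℂ L L) : L :=
  f * (Matrix.of fun j l => G j (x l)).det ^ M

/-- The place `Q` is over the generic point of the variety with function field `F`. -/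
def Horizontal {L : Type} [Field L] [Algebra ℂ L] (F : IntermediateField ℂ L) (Q : Place ℂ L) :
    Prop :=
  ∀ f ∈ F, f ≠ 0 → Q.ord f = 0

/-- The `ℚ`-divisor `Δ'` is equal to `Δ` outside of the support of `Γ`, and larger than `Δ - Γ` along
all components of `Γ`. -/
def Above {K : Type} [Field K] [Algebra ℂ K] {N : ℕ} (y : Fin (N + 1) → K)
    (Δ Γ Δ' : Place ℂ K → ℚ) : Prop :=
  ∀ P, IsPrimeDivisor y P → (Γ P = 0 → Δ' P = Δ P) ∧ (Γ P ≠ 0 → Δ P - Γ P < Δ' P)

/-- **Abundance.** Let `(X, Δ)` be a projective log canonical pair of dimension `n` with function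
field `K`, `Γ` and `A` effective divisors on `X` such that `K_X + Δ - Γ` is pseudo-effective, `Z → X`
a finite cover with function field `L`, and `F ⊆ L` the function field of a variety `W` of dimension
`d`, with `M`-canonical forms `φ i (dx₁ ∧ ... ∧ dx_d) ^ M`, `i = 0, ..., d`, with algebraically
independent ratios, `M > 0`. Let `L` be generated by functions `t j` and elements which are algebraic
over `F`. Assume for all prime divisors `P` of `X` which are not negligible and all prime divisors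
`Q` of `Z` over `P`, with ramification index `e`: `e (1 - Δ P) ≤ 1`; if `Q` is over the generic point
of `W` and a zero or pole of some `t j`, then `Δ P ≥ 1`; if `Q` is not over the generic point of `W`,
then the order of the forms on `W` along `Q` is at least `- M (1 - e (1 - Δ P))`. Then there is
`κ ≥ d` such that the Kodaira dimension and the numerical dimension of `K_X + Δ'` are equal to `κ`
for all `ℚ`-divisors `Δ'` (in particular for `Δ' = Δ`) which are equal to `Δ` outside of `Γ` and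
larger than `Δ - Γ` along `Γ`. -/
theorem result {K L : Type} [Field K] [Field L] [Algebra ℂ K] [Algebra ℂ L] [Algebra K L]
    [IsScalarTower ℂ K L] [FiniteDimensional K L] {N n d M r : ℕ} {y : Fin (N + 1) → K}
    (hy : NormalModel y) (hn : Algebra.trdeg ℂ K = n)
    {Δ : Place ℂ K → ℚ} (hΔ : Effective y Δ) (hLC : LogCanonical y n Δ)
    {Γ A : Place ℂ K → ℚ} (hΓ : Effective y Γ) (hA : Effective y A)
    (hps : PseudoEffective y n (Δ - Γ) A)
    {F : IntermediateField ℂ L} (hd : Algebra.trdeg ℂ F = d)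
    {x : Fin d → L} (hxF : ∀ j, x j ∈ F) (hx : AlgebraicIndependent ℂ x) (hM : 0 < M)
    {φ : Fin (d + 1) → L} (hφF : ∀ i, φ i ∈ F) (hφ0 : φ 0 ≠ 0)
    (hφ : AlgebraicIndependent ℂ (fun i : Fin d => φ i.succ / φ 0))
    {t : Fin r → L} (ht : ∀ j, t j ≠ 0)
    (hgen : IntermediateField.adjoin ℂ ({z : L | IsAlgebraic F z} ∪ Set.range t) = ⊤)
    (h : ∀ P, IsPrimeDivisor y P → ¬ Negligible y n Δ Γ A P →
      ∀ (Q : Place ℂ L) (e : ℕ), Over Q P e → (e : ℚ) * (1 - Δ P) ≤ 1 ∧
        (Horizontal F Q → (∃ j, Q.ord (t j) ≠ 0) → 1 ≤ Δ P) ∧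
        (¬ Horizontal F Q → ∀ i, OrdGe Q (baseForm x M (φ i)) (-(M * (1 - e * (1 - Δ P)))))) :
    ∃ κ : ℕ, d ≤ κ ∧ ∀ Δ' : Place ℂ K → ℚ, Above y Δ Γ Δ' →
      kodairaDim y n Δ' = (κ : WithBot ℕ) ∧
        ∀ A', Effective y A' → Integral y A' → numericalDim y n Δ' A' = (κ : EReal) := by
  have hneg : ∀ P, Γ P = 0 → ¬ Diminished y n Δ A P → ¬ Negligible y n Δ Γ A P := by
    rintro P h1 h2 (h3 | h3)
    · exact h3 h1
    · exact h2 h3
  obtain ⟨κ, h1, h2, -⟩ := Pool.Agent.Y172.main5 (L := L) hy hn hΔ hLC hΓ hA hps hd hxF hx hM hφF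
    hφ0 hφ (fun P hP h1 h2 Q e hQ hv i G hG => (h P hP (hneg P h1 h2) Q e hQ).2.2 hv i G hG) ht hgen
    (fun P hP h1 h2 Q e hQ hv ht => (h P hP (hneg P h1 h2) Q e hQ).2.1 hv ht)
    fun P hP h1 h2 Q e hQ => (h P hP (hneg P h1 h2) Q e hQ).1
  exact ⟨κ, h1, fun Δ' hΔ' => h2 Δ' (fun P hP => (hΔ' P hP).1) fun P hP => (hΔ' P hP).2⟩

end Pool.Agent.Results.MP_66b48b_ag.PseudoEffectiveDifference
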