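import Pool.Agent.Y191.Weak

/-!
# Nonvanishing and weak abundance for log canonical pairs whose interior has very affine fibres over
a variety with many hyperplane sections of small multiplicity

Let `(X, Δ)` be a projective log canonical pair of dimension `n`, and `X ⇢ P^v` a rational map whose
image `B`, any subvariety of `P^v`, has dimension `p`. Suppose:

* (the base) `ℓ i = 0`, `i < q`, are hyperplanes in general position which do not contain `B`, such
  that the points `ℓ i` impose independent conditions on the forms of degree `d`, with weights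
  `wt i ≥ 0` whose sum is greater than `(p + 1) γ`, `γ = (v - p + d).choose (v - p)`; if `e i` is the
  multiplicity of the hyperplane `ℓ i = 0` at the prime divisor `P` of `X` (for the divisors without
  fixed component which the map defines) then
  `min (#{i | e i ≠ 0}) γ ≤ γ Δ_P + ∑ i, (1 - wt i) e i`;
  or: there are more than `(v + Q).choose v` general hyperplanes, `2 v m ≤ Q (m - 1)`, `m ≥ 2`, and
  each `e i` is `0` or at least `m (1 - Δ_P)`;
* (the fibres) the function field of `X` is generated by functions `t j` and the algebraic closure in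
  it of the function field of `B`, and the zeros and poles of the `t j` over the generic point of `B`
  have coefficient (at least) `1` in `Δ`.

Then `K_X + Δ` is `ℚ`-effective, and its Kodaira dimension is equal to its numerical dimension.

The language and the definitions of `Pool.Agent.Y172` are used: `X` is given by the homogeneous
coordinates `y` of its generic point, with values in the function field `K` of `X`; the prime divisors
of `X` are places `P` of `K`, `P.ord` is the order along `P`.

Proof: the Kodaira dimension is bounded below by the products of forms along the fibres (`lower` in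
`Pool.Agent.Y172`) and of the form of the base of `Pool.Agent.Y191` (`base_fin`, `small_fib`), a
determinant built from the forms of degree `d + 1` which vanish at the points `ℓ i`; the numerical
dimension is bounded above by `upper` in `Pool.Agent.Y172`.
-/

set_option autoImplicit false

open FF Pool.Agent.W602.GT Pool.Agent.Y172 Pool.Agent.Y191

namespace Pool.Agent.Results.MP_66b48b_ag.SmallMultiplicityWeakAbundance

section

variable {K : Type} [Field K] [Algebra ℂ K] {N : ℕ}

/-- `(X, Δ)` is a projective log canonical pair of dimension `n`, where `y` is the generic point of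
`X`. -/
def LcPair (y : Fin (N + 1) → K) (n : ℕ) (Δ : Place ℂ K → ℚ) : Prop :=
  NormalModel y ∧ Algebra.trdeg ℂ K = n ∧ Effective y Δ ∧ LogCanonical y n Δ

/-- The `b j` are the coordinates of a rational map whose image has dimension `p` and is not
contained in one of the hyperplanes `ℓ i = 0`. -/
def IsMap {v q : ℕ} (ℓ : Fin q → Fin (v + 1) → ℂ) (b : Fin (v + 1) → K) (p : ℕ) : Prop :=
  (∀ i, lf (ℓ i) b ≠ 0) ∧ (∃ j, b j ≠ 0) ∧ Algebra.trdeg ℂ (RF ℂ b) = p

/-- The function field of `X` is generated by functions `t j` and the elements which are algebraic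
over `L`, and the prime divisors of `X` which are zeros or poles of some `t j` and are trivial on `L`
have coefficient at least `1` in `Δ`. -/
def VeryAffineFibres (y : Fin (N + 1) → K) (Δ : Place ℂ K → ℚ) (L : IntermediateField ℂ K) : Prop :=
  ∃ (r : ℕ) (t : Fin r → K), (∀ j, t j ≠ 0) ∧
    IntermediateField.adjoin ℂ ({x : K | IsAlgebraic L x} ∪ Set.range t) = ⊤ ∧
    ∀ P, IsPrimeDivisor y P → (∀ f ∈ L, f ≠ 0 → P.ord f = 0) → (∃ j, P.ord (t j) ≠ 0) → 1 ≤ Δ P

/-- `κ(K_X + Δ)` is a natural number (so `K_X + Δ` is `ℚ`-effective) and equal to the numerical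
dimension of `K_X + Δ`, with respect to any effective integral divisor `A`. -/
def Abundant (y : Fin (N + 1) → K) (n : ℕ) (Δ : Place ℂ K → ℚ) : Prop :=
  ∃ κ : ℕ, kodairaDim y n Δ = (κ : WithBot ℕ) ∧
    ∀ A, Effective y A → Integral y A → numericalDim y n Δ A = (κ : EReal)

end

/-- Let `(X, Δ)` be a projective log canonical pair of dimension `n`, `b` the coordinates of a
rational map `X ⇢ P^v` whose image has dimension `p`, and let `(X, Δ)` have very affine fibres over
the image.

(1) Let `ℓ i = 0` be hyperplanes in general position which do not contain the image and impose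
independent conditions on the forms of degree `d`, with weights `wt i ≥ 0` whose sum is greater than
`(p + 1) * γ`, where `γ = (v - p + d).choose (v - p)`, and let the multiplicities `e i` satisfy
`min (#{i | e i ≠ 0}) γ ≤ γ Δ_P + ∑ i, (1 - wt i) e i` at all prime divisors of `X`. Then `K_X + Δ` is
`ℚ`-effective and its Kodaira dimension is equal to its numerical dimension.

(2) Let `m ≥ 2`, `2 * v * m ≤ Q * (m - 1)` and `(v + Q).choose v < q`. For `q` general hyperplanes
(some polynomial `Ψ` does not vanish at the coefficients) the following holds: if `p ≥ 1` and the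
multiplicities `e i` at the prime divisors `P` of `X` are `0` or at least `m * (1 - Δ_P)`, then
`K_X + Δ` is `ℚ`-effective and its Kodaira dimension is equal to its numerical dimension. -/
theorem result {v q : ℕ} (hv : 1 ≤ v) :
    (∀ d : ℕ, 0 < d → ∀ ℓ : Fin q → Fin (v + 1) → ℂ, Independent d ℓ → GeneralPosition ℓ →
      v + 1 ≤ q → ∀ (K : Type) [Field K] [Algebra ℂ K] (N n p : ℕ) (y : Fin (N + 1) → K)
      (Δ : Place ℂ K → ℚ), LcPair y n Δ → ∀ b : Fin (v + 1) → K, IsMap ℓ b p →
      ∀ wt : Fin q → ℚ, (∀ i, 0 ≤ wt i) →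
      (((p + 1) * (v - p + d).choose (v - p) : ℕ) : ℚ) < ∑ i, wt i →
      (∀ P, IsPrimeDivisor y P → ∀ (c : ℤ) (e : Fin q → ℕ), OrdData P ℓ b c e →
        ((min (Finset.univ.filter fun i => e i ≠ 0).card ((v - p + d).choose (v - p)) : ℕ) : ℚ) ≤
          ((v - p + d).choose (v - p) : ℕ) * Δ P + ∑ i, (1 - wt i) * e i) →
      VeryAffineFibres y Δ (RF ℂ b) → Abundant y n Δ) ∧
    ∀ m Q : ℕ, 2 ≤ m → 2 * v * m ≤ Q * (m - 1) → (v + Q).choose v < q →
      ∃ Ψ : MvPolynomial (Fin q × Fin (v + 1)) ℂ, Ψ ≠ 0 ∧
        ∀ ℓ : Fin q → Fin (v + 1) → ℂ, MvPolynomial.eval (fun x => ℓ x.1 x.2) Ψ ≠ 0 →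
        ∀ (K : Type) [Field K] [Algebra ℂ K] (N n p : ℕ) (y : Fin (N + 1) → K)
        (Δ : Place ℂ K → ℚ), 1 ≤ p → LcPair y n Δ → ∀ b : Fin (v + 1) → K, IsMap ℓ b p →
        (∀ P, IsPrimeDivisor y P → ∀ (c : ℤ) (e : Fin q → ℕ), OrdData P ℓ b c e →
          ∀ i, e i = 0 ∨ m * (1 - Δ P) ≤ e i) →
        VeryAffineFibres y Δ (RF ℂ b) → Abundant y n Δ := by
  constructor
  · rintro d hd ℓ hI hg hq K _ _ N n p y Δ ⟨hy, hn, hΔ, hLC⟩ b ⟨hl, hb, htr⟩ wt hwt hlt hmult
      ⟨r, t, ht, hgen, h2⟩
    exact weak_small hy hn hΔ hLC hd hI hg hq hl hb htr hwt hlt hmult ht hgen h2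
  · intro m Q hm hQ hq
    obtain ⟨Ψ, hΨ, h⟩ := weak_general (n' := v) (q := q) hv hm hQ hq
    refine ⟨Ψ, hΨ, ?_⟩
    rintro ℓ hℓ K _ _ N n p y Δ hp ⟨hy, hn, hΔ, hLC⟩ b ⟨hl, hb, htr⟩ hmult ⟨r, t, ht, hgen, h2⟩
    exact h ℓ hℓ K N n p r y Δ hp hy hn hΔ hLC b hl hb htr hmult t ht hgen h2

end Pool.Agent.Results.MP_66b48b_ag.SmallMultiplicityWeakAbundance
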