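import Pool.Agent.Y169.TP.Real

/-!
# Nonvanishing for toroidal pairs with real coefficients over abelian covers of projective space

Let `F k`, `k = 0, ..., n`, be forms of degrees `d k` in `n + 1` variables whose zero sets in the
projective `n`-space are smooth hypersurfaces with normal crossings, and let `Y` be an abelian cover
of the projective space which is branched only along these hypersurfaces: its function field `K` is
generated by the affine coordinates `x (b + 1) / x 0` and by roots `z j`,
`z j ^ (m j) = ∏ k, (F k (x) / x 0 ^ (d k)) ^ (a j k)`, where `m j` divides `∑ k, a j k * d k`.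
(Fewer hypersurfaces are allowed: add general hyperplanes, with `a j k = 0` and with coefficient `0`.)

Together with the preimage of the hypersurfaces, `Y` is a toroidal variety. A prime divisor `P` over
`Y` has the vector `v` of `Multiplicities` of the hypersurfaces along `P`. The vectors of the divisors
over `Y` are `0` and the `Admissible` vectors: `v ≠ 0`, not all `v k` are positive, and
`m j ∣ ∑ k, a j k * v k` for all `j`; the toroidal prime divisors over `Y` belong to the `Primitive`
ones of them, which are not a proper multiple of an admissible vector.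

Let `X` be a `ℚ`-factorial toroidal modification of `Y`, `W i`, `i < r`, the primitive vectors of its
toroidal prime divisors (the preimages of the hypersurfaces themselves are among them) and `Δ` the
divisor in which the toroidal divisors which belong to `W i` have the real coefficient `β i`,
`0 ≤ β i ≤ 1`. So `(X, Δ)` is log canonical. The pair depends on the vectors `W i` only, up to
modifications in codimension two.

The theorem: `K_X + Δ` is pseudo-effective if and only if it is `ℝ`-linearly equivalent to an effective
divisor, and if and only if the `polyhedron` of the real `y` with `∑ k, d k * y k = ∑ k, (d k - 1)` and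
`∑ k, W i k * y k ≥ 1 - β i` for all `i` is not empty.

Sections and effective divisors are given by conditions at the prime divisors `P` over `X` whose centre
is in the open part of `X` where at most one toroidal divisor passes through each point, i.e. at the
`P` whose vector is `0` or a multiple `c • W i`; the complement of this part has codimension two, and
at the exceptional divisors over this part the conditions follow from those at the prime divisors of
`X`, because `X` is smooth there.
-/

set_option autoImplicit false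

open FF MvPolynomial Pool.Agent.W602.GT

namespace Pool.Agent.Results.MP_66b48b_ag.ToroidalPairs

/-- The hypersurfaces `F k = 0` have normal crossings: at every point of the projective space the
gradients of the forms `F k` which vanish at this point are linearly independent. -/
def NormalCrossings {n : ℕ} (F : Fin (n + 1) → MvPolynomial (Fin (n + 1)) ℂ) : Prop :=
  ∀ x : Fin (n + 1) → ℂ, x ≠ 0 → LinearIndependent ℂ
    fun (k : {k // eval x (F k) = 0}) (l : Fin (n + 1)) => eval x (pderiv l (F k.1))

/-- The affine coordinates of the projective space. -/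
noncomputable def affine {n : ℕ} {K : Type} [Field K] (x : Fin (n + 1) → K) (b : Fin n) : K :=
  x b.succ / x 0

section

variable {n R r : ℕ}

/-- The multiplicities which satisfy the divisibility conditions. -/
def Admissible (m : Fin R → ℕ) (a : Fin R → Fin (n + 1) → ℕ) (v : Fin (n + 1) → ℕ) : Prop :=
  v ≠ 0 ∧ (∃ k, v k = 0) ∧ ∀ j, m j ∣ ∑ k, a j k * v k

/-- The admissible vectors which are not a proper multiple of an admissible vector. -/
def Primitive (m : Fin R → ℕ) (a : Fin R → Fin (n + 1) → ℕ) (w : Fin (n + 1) → ℕ) : Prop :=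
  Admissible m a w ∧ ∀ (c : ℕ) (v : Fin (n + 1) → ℕ), Admissible m a v → w = c • v → c = 1

/-- The exponents of the effective divisors. -/
def polyhedron (d : Fin (n + 1) → ℕ) (W : Fin r → Fin (n + 1) → ℕ) (β : Fin r → ℝ) :
    Set (Fin (n + 1) → ℝ) :=
  {y | ∑ k, (d k : ℝ) * y k = ∑ k, ((d k : ℝ) - 1) ∧
    ∀ i, 1 - β i ≤ ∑ k, (W i k : ℝ) * y k}

end

section sections

variable {K : Type} [Field K] [Algebra ℂ K] (N : ℕ) (x : Fin (N + 1) → K)
  (F : Fin (N + 1) → MvPolynomial (Fin (N + 1)) ℂ) (d : Fin (N + 1) → ℕ) {r : ℕ}
  (W : Fin r → Fin (N + 1) → ℕ) (β : Fin r → ℝ)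

/-- `v k` is the multiplicity of the hypersurface `F k = 0` along `P`: the order at `P` of `F k`, in
coordinates which are scaled such that the smallest of their orders is zero. -/
def Multiplicities {N : ℕ} (x : Fin (N + 1) → K) (F : Fin (N + 1) → MvPolynomial (Fin (N + 1)) ℂ)
    (d : Fin (N + 1) → ℕ) (P : Place ℂ K) (v : Fin (N + 1) → ℕ) : Prop :=
  ∃ α : ℤ, (∀ l, α ≤ P.ord (x l)) ∧ (∃ l, P.ord (x l) = α) ∧
    ∀ k, P.ord (aeval x (F k)) = d k * α + v k

/-- `ω` is a section of `m (K_X + Δ) + j A`: a rational section of the `m`-th power of the canonical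
bundle (`IsPluri`: a function of `N` rational vector fields which is multiplied by `det B ^ m` under
a linear substitution `B`) whose order on the vector fields which are regular at `P` is at least `j`
times the order of one of the functions in `S`, minus `m` times the coefficient of `Δ`, for all prime
divisors `P` over `X` (divisorial places of `K`) with the multiplicities `0` (not in the toroidal
divisors) or `c • W i`, `c ≥ 1` (centre in the toroidal divisors which belong to `W i`, and in no
other toroidal divisor). Here `A` is the divisor which is generated by the finite set `S` of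
functions. -/
def IsPairSection (S : Finset K) (m j : ℕ) (ω : (Fin N → Derivation ℂ K K) → K) : Prop :=
  IsPluri m ω ∧ ∀ P : Place ℂ K, Divisorial N P → ∀ v, Multiplicities x F d P v →
    ∀ D : Fin N → Derivation ℂ K K, (∀ c, DerReg P (D c)) →
    (v = 0 → ω D = 0 ∨ ∃ s ∈ S, s ≠ 0 ∧ j * P.ord s ≤ P.ord (ω D)) ∧
    ∀ i c, 1 ≤ c → v = c • W i →
      ω D = 0 ∨ ∃ s ∈ S, s ≠ 0 ∧ (j : ℝ) * P.ord s - m * β i ≤ P.ord (ω D)

/-- `K_X + Δ` is pseudo-effective: there is a divisor `A` such that for all `M` a positive multiple of
`M (K_X + Δ) + A` is effective. -/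
def Pseudoeffective : Prop :=
  ∃ S : Finset K, ∀ M : ℕ, ∃ j : ℕ, 1 ≤ j ∧ ∃ ω : (Fin N → Derivation ℂ K K) → K, ω ≠ 0 ∧
    IsPairSection N x F d W β S (j * M) j ω

/-- `K_X + Δ` is `ℝ`-linearly equivalent to an effective divisor: there are a rational canonical form
`ω ≠ 0`, real numbers `t i` and rational functions `f i ≠ 0` such that
`div ω + Δ + ∑ i, t i • div (f i)` is effective on `X`. -/
def EffectiveUpToEquivalence : Prop :=
  ∃ ω : (Fin N → Derivation ℂ K K) → K, ω ≠ 0 ∧ IsPluri 1 ω ∧
    ∃ (L : ℕ) (t : Fin L → ℝ) (f : Fin L → K), (∀ i, f i ≠ 0) ∧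
    ∀ P : Place ℂ K, Divisorial N P → ∀ v, Multiplicities x F d P v →
    ∀ D : Fin N → Derivation ℂ K K, (∀ c, DerReg P (D c)) →
    (v = 0 → ω D = 0 ∨ 0 ≤ (P.ord (ω D) : ℝ) + ∑ i, t i * P.ord (f i)) ∧
    ∀ i c, 1 ≤ c → v = c • W i →
      ω D = 0 ∨ 0 ≤ (P.ord (ω D) : ℝ) + β i + ∑ l, t l * P.ord (f l)

end sections

/-- **Nonvanishing for toroidal pairs.** Let `(X, Δ)` be the toroidal pair with the primitive vectors
`W i` and the real coefficients `β i ∈ [0, 1]` over an abelian cover of the projective `n`-space which
is branched along `n + 1` hypersurfaces `F k = 0` with normal crossings. Then `K_X + Δ` is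
pseudo-effective if and only if it is `ℝ`-linearly equivalent to an effective divisor, and if and only
if the polyhedron is not empty. -/
theorem result (n R r : ℕ) (hn : 1 ≤ n) (d : Fin (n + 1) → ℕ) (hd : ∀ k, 1 ≤ d k)
    (F : Fin (n + 1) → MvPolynomial (Fin (n + 1)) ℂ) (hF : ∀ k, (F k).IsHomogeneous (d k))
    (hs : NormalCrossings F) (m : Fin R → ℕ) (hm : ∀ j, 1 ≤ m j) (a : Fin R → Fin (n + 1) → ℕ)
    (hdiv : ∀ j, m j ∣ ∑ k, a j k * d k)
    (K : Type) [Field K] [Algebra ℂ K] (x : Fin (n + 1) → K) (hx0 : x 0 ≠ 0)
    (hbas : IsTranscendenceBasis ℂ (affine x)) (z : Fin R → K)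
    (hz : ∀ j, z j ^ m j = ∏ k, (aeval x (F k) / x 0 ^ d k) ^ a j k)
    (hgen : IntermediateField.adjoin ℂ (Set.range (affine x) ∪ Set.range z) = ⊤)
    (W : Fin r → Fin (n + 1) → ℕ) (hW : ∀ i, Primitive m a (W i))
    (hax : ∀ k, ∃ (i : Fin r) (e : ℕ), 0 < e ∧ W i = Pi.single k e)
    (β : Fin r → ℝ) (hβ0 : ∀ i, 0 ≤ β i) (hβ1 : ∀ i, β i ≤ 1) :
    (Pseudoeffective n x F d W β ↔ EffectiveUpToEquivalence n x F d W β) ∧
    (Pseudoeffective n x F d W β ↔ (polyhedron d W β).Nonempty) := by
  obtain ⟨e, rfl⟩ : ∃ e, n = e + 1 := ⟨n - 1, by omega⟩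
  have hp : polyhedron d W β = Pool.Agent.Y169.TP.PiR d W β := by
    unfold polyhedron Pool.Agent.Y169.TP.PiR
    rw [Finset.sum_sub_distrib]
    simp only [Finset.sum_const, Finset.card_univ, Fintype.card_fin, nsmul_eq_mul, mul_one]
  obtain ⟨hxne, hFne⟩ := Pool.Agent.Y169.TP.ne_of_bas hx0 hbas hd hF hs
  have h1 : ∀ (P : Place ℂ K) (v : Fin (e + 1 + 1) → ℕ), Multiplicities x F d P v ↔
      ∃ α : ℤ, Pool.Agent.Y169.TH.Dat P F d x α v := fun P v =>
    exists_congr fun α => ⟨fun h => ⟨hxne, h.1, h.2.1, hFne, h.2.2⟩,
      fun h => ⟨h.ha1, h.ha2, h.hv⟩⟩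
  have hsec : IsPairSection (e + 1) x F d W β =
      Pool.Agent.Y169.TP.TSec (e + 1) x F d W β := by
    funext S m j ω
    apply propext
    unfold IsPairSection Pool.Agent.Y169.TP.TSec
    simp only [h1]
  have heff : EffectiveUpToEquivalence (e + 1) x F d W β ↔
      Pool.Agent.Y169.TP.TEff (e + 1) x F d W β := by
    unfold EffectiveUpToEquivalence Pool.Agent.Y169.TP.TEff
    simp only [h1]
  rw [hp, heff]
  unfold Pseudoeffective
  rw [hsec]
  exact Pool.Agent.Y169.TP.main_real hx0 hbas hd hF hs hm hz hdiv hgen hW hax hβ0 hβ1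

end Pool.Agent.Results.MP_66b48b_ag.ToroidalPairs
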